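import Pool.Agent.Y874.TP.Stm

/-! Project TP: the invariant of diagrams with removed triple points. -/

namespace Pool.Agent.Y874.TP

open Pool.Agent.Y468.SR

theorem cm_congr {P P' : List Pass} {m : ℕ → ℕ} (h : ∀ r, r ∈ P ↔ r ∈ P') (hm : CM P m) :
    CM P' m := fun p hp => hm p ((h p).2 hp)

theorem invM_of {E E' : Code} {m : ℕ → ℕ} (hP : ∀ r, r ∈ passes E' ↔ r ∈ passes E)
    (hC : ∀ (G : Type) [Group G] (o u : ℕ → G), (∀ b, CN (bv (vals o u E') b)) →
      ∀ b, CN (bv (vals o u E) b)) (h : InvM E' m) : InvM E m := by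
  obtain ⟨hm, hc, hn⟩ := h
  exact ⟨matching_congr hP hm, cm_congr hP hc, fun G _ o u hv =>
    hC G o u (hn G o u (valid_congr (fun r => (hP r).symm) hv))⟩

theorem invM_perm {E E' : Code} {m : ℕ → ℕ} (h : E.Perm E') (hi : InvM E m) : InvM E' m := by
  refine invM_of (fun r => ?_) (fun G _ o u hn b => ?_) hi
  · exact (passes_perm h).mem_iff
  · exact (hn b).perm (bv_perm (h.map _) b)

theorem invC_perm {E E' : Code} (h : E.Perm E') (hi : InvC E) : InvC E' := by
  obtain ⟨m, hm⟩ := hi
  exact ⟨m, invM_perm h hm⟩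

theorem invM_rotate {x y : List Pass} {b : ℕ} {R : Code} {m : ℕ → ℕ}
    (hi : InvM ((x ++ y, b) :: R) m) : InvM ((y ++ x, b) :: R) m := by
  refine invM_of (fun r => ?_) (fun G _ o u hn a => ?_) hi
  · simp only [passes_cons, List.mem_append]; tauto
  · have := hn a
    simp only [vals, List.map_cons, bv_cons] at this ⊢
    split_ifs at this ⊢ with h
    · have e := this.conj_head (wval o u y)
      simpa [mul_assoc] using e
    · exact this

theorem passes_append' (D D' : Code) : passes (D ++ D') = passes D ++ passes D' := by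
  simp [passes]

/-! ### relabelling and renaming circles -/

/-- other labels -/
def Tri.relabel (g : ℕ → ℕ) (T : Tri) : Tri := { T with li := g T.li, lj := g T.lj, lk := g T.lk }

/-- other names of the crossings -/
def Tri.rename (f : ℕ → ℕ) (T : Tri) : Tri :=
  { T with a₁ := f T.a₁, a₂ := f T.a₂, b₁ := f T.b₁, b₂ := f T.b₂, c₁ := f T.c₁, c₂ := f T.c₂ }

theorem Tri.relabel_cols (g : ℕ → ℕ) (T : Tri) : (T.relabel g).cols = T.cols := rfl
theorem Tri.relabel_ok {g : ℕ → ℕ} {T : Tri} (h : T.Ok) : (T.relabel g).Ok := h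
theorem Tri.relabel_col {g : ℕ → ℕ} {T : Tri} (h : T.Col) : (T.relabel g).Col := h

theorem TC_nil : TC [] = [] := rfl
theorem TC_cons (T : Tri) (Ts : List Tri) : TC (T :: Ts) = T.code ++ TC Ts := rfl

theorem TC_relabel (g : ℕ → ℕ) (Ts : List Tri) :
    TC (Ts.map (Tri.relabel g)) = (TC Ts).map fun C => (C.1, g C.2) := by
  induction Ts with
  | nil => rfl
  | cons T Ts ih => rw [List.map_cons, TC_cons, TC_cons, List.map_append, ih]; rfl

theorem renamed_append (f : ℕ → ℕ) (D D' : Code) :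
    renamed f (D ++ D') = renamed f D ++ renamed f D' := by simp [renamed]

theorem word4_map (f : Pass → Pass) (e : Bool) (p₁ p₂ q₁ q₂ : Pass) :
    (word4 e p₁ p₂ q₁ q₂).map f = word4 e (f p₁) (f p₂) (f q₁) (f q₂) := by
  cases e <;> simp [word4]

theorem code_rename (f : ℕ → ℕ) (T : Tri) : (T.rename f).code = renamed f T.code := by
  simp only [renamed_def, Tri.code, List.map_cons, List.map_nil, Tri.wi, Tri.wj, Tri.wk, word4_map]
  rfl

theorem TC_rename (f : ℕ → ℕ) (Ts : List Tri) :
    TC (Ts.map (Tri.rename f)) = renamed f (TC Ts) := by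
  induction Ts with
  | nil => rfl
  | cons T Ts ih => rw [List.map_cons, TC_cons, TC_cons, renamed_append, ih, code_rename]

/-- the crossings of the circles -/
def Tri.names (T : Tri) : List ℕ := [T.a₁, T.a₂, T.b₁, T.b₂, T.c₁, T.c₂]

theorem mem_code (T : Tri) (p : Pass) : p ∈ passes T.code ↔ p = T.pa₁ ∨ p = T.pa₁.mate ∨
    p = T.pa₂ ∨ p = T.pa₂.mate ∨ p = T.pb₁ ∨ p = T.pb₁.mate ∨ p = T.pb₂ ∨ p = T.pb₂.mate ∨
    p = T.pc₁ ∨ p = T.pc₁.mate ∨ p = T.pc₂ ∨ p = T.pc₂.mate := by
  simp only [Tri.code, passes_cons, passes_nil, List.append_nil, List.mem_append, Tri.wi, Tri.wj,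
    Tri.wk, word4]
  split_ifs <;> simp only [List.mem_cons, List.not_mem_nil, or_false] <;> tauto

theorem exists_pass {Ts : List Tri} {T : Tri} (hT : T ∈ Ts) {c : ℕ} (hc : c ∈ T.names) :
    ∃ p ∈ passes (TC Ts), p.crossing = c := by
  have h : ∃ p ∈ passes T.code, p.crossing = c := by
    simp only [Tri.names, List.mem_cons, List.not_mem_nil, or_false] at hc
    simp only [mem_code]
    rcases hc with rfl | rfl | rfl | rfl | rfl | rfl
    · exact ⟨T.pa₁, by simp, rfl⟩
    · exact ⟨T.pa₂, by simp, rfl⟩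
    · exact ⟨T.pb₁, by simp, rfl⟩
    · exact ⟨T.pb₂, by simp, rfl⟩
    · exact ⟨T.pc₁, by simp, rfl⟩
    · exact ⟨T.pc₂, by simp, rfl⟩
  obtain ⟨p, hp, h1⟩ := h
  refine ⟨p, ?_, h1⟩
  obtain ⟨C, hC, hp⟩ := mem_passes.1 hp
  exact mem_passes.2 ⟨C, List.mem_flatMap.2 ⟨T, hT, hC⟩, hp⟩

theorem mem_TC {Ts : List Tri} {p : Pass} (hp : p ∈ passes (TC Ts)) :
    ∃ T ∈ Ts, p ∈ passes T.code := by
  obtain ⟨C, hC, hp⟩ := mem_passes.1 hp
  obtain ⟨T, hT, hC⟩ := List.mem_flatMap.1 hC
  exact ⟨T, hT, mem_passes.2 ⟨C, hC, hp⟩⟩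

/-- `D` together with the circles `Ts` has the invariant -/
structure Inv3 (D : Code) (Ts : List Tri) : Prop where
  wf : WF (passes (D ++ TC Ts))
  ok : ∀ T ∈ Ts, T.Ok ∧ T.Col
  nz : ∀ c ∈ Ts.flatMap Tri.cols, c ≠ 0
  nd : (Ts.flatMap Tri.cols).Nodup
  inv : InvC (D ++ TC Ts)

/-- passages of `D` and of the circles have different crossings -/
theorem sep {D O : Code} (hD : WF (passes D)) (h : WF (passes (D ++ O))) {p q : Pass}
    (hp : p ∈ passes D) (hq : q ∈ passes O) : q.crossing ≠ p.crossing := by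
  rw [passes_append'] at h
  exact h.ne_crossing hp (hD.1 p hp) hq

theorem wf_right {D O : Code} (hD : WF (passes D)) (h : WF (passes (D ++ O))) : WF (passes O) := by
  rw [passes_append'] at h
  exact h.remove hD.1

theorem exists_bound (F : List Pass) : ∃ K : ℕ, ∀ p ∈ F, p.crossing.unpair.2 < K := by
  induction F with
  | nil => exact ⟨0, by simp⟩
  | cons p F ih =>
    obtain ⟨K, hK⟩ := ih
    refine ⟨K + p.crossing.unpair.2 + 1, fun q hq => ?_⟩
    rcases List.mem_cons.1 hq with rfl | hq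
    · omega
    · have := hK q hq; omega

/-- the circles can be given crossings with new names -/
theorem freshen (hren : S_REN) {D : Code} {Ts : List Tri} (hD : WF (passes D)) (h : Inv3 D Ts)
    (F : List Pass) : ∃ Ts', Inv3 D Ts' ∧ Ts'.flatMap Tri.cols = Ts.flatMap Tri.cols ∧
      ∀ p ∈ F, ∀ q ∈ passes (TC Ts'), q.crossing ≠ p.crossing := by
  classical
  obtain ⟨K, hK⟩ := exists_bound (passes D ++ F)
  set f : ℕ → ℕ := fun c => if ∃ p ∈ passes D, p.crossing = c then c else
    Nat.pair (colour c) (K + c) with hf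
  have f1 : ∀ p ∈ passes D, f p.crossing = p.crossing := by
    intro p hp; rw [hf]; simp only; rw [if_pos ⟨p, hp, rfl⟩]
  have f2 : ∀ p ∈ passes (TC Ts), f p.crossing = Nat.pair (colour p.crossing) (K + p.crossing) := by
    intro p hp
    rw [hf]; simp only
    rw [if_neg]
    rintro ⟨q, hq, h1⟩
    exact sep hD h.wf hq hp h1.symm
  have f3 : ∀ p ∈ passes (TC Ts), ∀ q ∈ passes D ++ F, f p.crossing ≠ q.crossing := by
    intro p hp q hq he
    have := hK q hq
    rw [← he, f2 p hp, Nat.unpair_pair] at this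
    simp only at this
    omega
  have hinj : ∀ p ∈ passes (D ++ TC Ts), ∀ q ∈ passes (D ++ TC Ts),
      f p.crossing = f q.crossing → p.crossing = q.crossing := by
    intro p hp q hq he
    rw [passes_append', List.mem_append] at hp hq
    rcases hp with hp | hp <;> rcases hq with hq | hq
    · rwa [f1 p hp, f1 q hq] at he
    · rw [f1 p hp] at he
      exact absurd he.symm (f3 q hq p (by simp [hp]))
    · rw [f1 q hq] at he
      exact absurd he (f3 p hp q (by simp [hq]))
    · rw [f2 p hp, f2 q hq, Nat.pair_eq_pair] at he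
      omega
  have hcol : ∀ p ∈ passes (D ++ TC Ts), colour (f p.crossing) = colour p.crossing := by
    intro p hp
    rw [passes_append', List.mem_append] at hp
    rcases hp with hp | hp
    · rw [f1 p hp]
    · rw [f2 p hp, colour, Nat.unpair_pair]
  have hcolT : ∀ T ∈ Ts, ∀ c ∈ T.names, colour (f c) = colour c := by
    intro T hT c hc
    obtain ⟨p, hp, rfl⟩ := exists_pass hT hc
    exact hcol p (by rw [passes_append']; simp [hp])
  have hDren : renamed f D = D := by
    unfold renamed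
    conv_rhs => rw [← List.map_id D]
    refine List.map_congr_left fun C hC => ?_
    have : (C.1.map fun p => (⟨f p.crossing, p.isOver, p.isPos⟩ : Pass)) = C.1 := by
      conv_rhs => rw [← List.map_id C.1]
      refine List.map_congr_left fun p hp => ?_
      rw [f1 p (mem_passes.2 ⟨C, hC, hp⟩)]; rfl
    rw [this]; rfl
  have hE : renamed f (D ++ TC Ts) = D ++ TC (Ts.map (Tri.rename f)) := by
    rw [renamed_append, hDren, TC_rename]
  have hcols : ∀ T ∈ Ts, (T.rename f).cols = T.cols := by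
    intro T hT
    have := hcolT T hT
    simp only [Tri.names, List.mem_cons, List.not_mem_nil, or_false, forall_eq_or_imp,
      forall_eq] at this
    simp only [Tri.cols, Tri.rename, this.1, this.2.2.1, this.2.2.2.2.1]
  have hcols' : (Ts.map (Tri.rename f)).flatMap Tri.cols = Ts.flatMap Tri.cols := by
    rw [List.flatMap_map]
    rw [List.flatMap_def, List.flatMap_def]
    congr 1
    exact List.map_congr_left hcols
  refine ⟨Ts.map (Tri.rename f), ⟨?_, ?_, ?_, ?_, ?_⟩, hcols', ?_⟩
  · rw [← hE, passes_renamed]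
    exact h.wf.ren hinj
  · intro T' hT'
    obtain ⟨T, hT, rfl⟩ := List.mem_map.1 hT'
    refine ⟨(h.ok T hT).1, ?_⟩
    have h1 := (h.ok T hT).2
    have := hcolT T hT
    simp only [Tri.names, List.mem_cons, List.not_mem_nil, or_false, forall_eq_or_imp,
      forall_eq] at this
    obtain ⟨k1, k2, k3, k4, k5, k6⟩ := this
    unfold Tri.Col Tri.rename
    simp only [k1, k2, k3, k4, k5, k6]
    exact h1
  · rw [hcols']; exact h.nz
  · rw [hcols']; exact h.nd
  · rw [← hE]
    exact (hren f _ hinj hcol).1 h.inv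
  · intro p hp q hq
    rw [TC_rename] at hq
    obtain ⟨q', hq', rfl⟩ := mem_renamed.1 hq
    exact f3 q' hq' p (by simp [hp])

end Pool.Agent.Y874.TP
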