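import Pool.Agent.Y468.SR.Labels

/-!
# Movies with at most one triple point on each double curve

Crossings are named by pairs of natural numbers, coded by one natural number; the first member of the
pair is the colour of the double curve to which the crossing belongs. The colour is kept by all moves.
-/

namespace Pool.Agent.Y874.TP

open Pool.Agent.Y468.SR

/-- the colour of a crossing (the name of its double curve) -/
def colour (c : ℕ) : ℕ := c.unpair.1

/-- Reidemeister moves of types I and II. Moves of type I (branch points of the projected surface) take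
place only on double curves of colour `0`; the two crossings of a move of type II have one colour. -/
inductive CReid : List (Pass ⊕ ℕ) → List (Pass ⊕ ℕ) → Prop
  | one (A B : List (Pass ⊕ ℕ)) (p : Pass) (hc : colour p.crossing = 0) :
      CReid (A ++ two p p.mate ++ B) (A ++ B)
  | twoSame (A B C : List (Pass ⊕ ℕ)) (p q : Pass) (h : p.crossing ≠ q.crossing)
      (ho : p.isOver = q.isOver) (hs : q.isPos = !p.isPos)
      (hc : colour p.crossing = colour q.crossing) :
      CReid (A ++ two p q ++ B ++ two p.mate q.mate ++ C) (A ++ B ++ C)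
  | twoOpp (A B C : List (Pass ⊕ ℕ)) (p q : Pass) (h : p.crossing ≠ q.crossing)
      (ho : p.isOver = q.isOver) (hs : q.isPos = !p.isPos)
      (hc : colour p.crossing = colour q.crossing) :
      CReid (A ++ two p q ++ B ++ two q.mate p.mate ++ C) (A ++ B ++ C)

/-- The steps of a movie other than moves of type III, with births allowed, keeping the colours. -/
inductive CStep : Code → Code → Prop
  | perm (D D' : Code) (h : D.Perm D') : CStep D D'
  | rename (f : ℕ → ℕ) (D : Code) (hf : ∀ p ∈ passes D, ∀ q ∈ passes D,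
      f p.crossing = f q.crossing → p.crossing = q.crossing)
      (hc : ∀ p ∈ passes D, colour (f p.crossing) = colour p.crossing) : CStep D (renamed f D)
  | rotate (x y : List Pass) (b : ℕ) (R : Code) : CStep ((x ++ y, b) :: R) ((y ++ x, b) :: R)
  | reid (D D' : Code) (h : CReid (enc D) (enc D')) : CStep D D'
  | reidInv (D D' : Code) (h : CReid (enc D') (enc D)) : CStep D D'
  | death (b : ℕ) (R : Code) (hb : ∀ C ∈ R, C.2 ≠ b) : CStep (([], b) :: R) R
  | birth (b : ℕ) (R : Code) (hb : ∃ C ∈ R, C.2 = b) : CStep R (([], b) :: R)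
  | split (x y : List Pass) (b b' : ℕ) (R : Code) (hb : b ≠ b') :
      CStep ((x ++ y, b) :: R.map fun C => (C.1, if C.2 = b' then b else C.2))
        ((x, b) :: (y, b') :: R)
  | merge (x y : List Pass) (b : ℕ) (R : Code) :
      CStep ((x, b) :: (y, b) :: R) ((x ++ y, b) :: R)

/-- `TriAt x y z t m b`: the pairs of passages `t`, `m`, `b` of the top, middle and bottom strand
through the vertices `x = t ∩ m`, `y = t ∩ b`, `z = m ∩ b` of a triangle (as in `Triangle`). -/
inductive TriAt : ℕ → ℕ → ℕ → Pass × Pass → Pass × Pass → Pass × Pass → Prop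
  | mk (x y z : ℕ) (sx sy sz τ μ β : Bool) (hxy : x ≠ y) (hyz : y ≠ z) (hxz : x ≠ z)
      (h₁ : xor sx (xor τ μ) = xor sy (xor τ β)) (h₂ : xor sy (xor τ β) = xor sz (xor μ β)) :
      TriAt x y z (if τ then (⟨x, true, sx⟩, ⟨y, true, sy⟩) else (⟨y, true, sy⟩, ⟨x, true, sx⟩))
        (if μ then (⟨x, false, sx⟩, ⟨z, true, sz⟩) else (⟨z, true, sz⟩, ⟨x, false, sx⟩))
        (if β then (⟨y, false, sy⟩, ⟨z, false, sz⟩) else (⟨z, false, sz⟩, ⟨y, false, sy⟩))

/-- `SMovie D T`: the classical link `D` bounds disjoint discs (or planar surfaces, one for each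
label) by a movie ending with the empty diagram, in which births are allowed; moves of type III take
place at crossings of three different nonzero colours, each colour being involved in at most one of
these moves, so that each double curve contains at most one triple point; `T` is the list of the
colours involved. -/
inductive SMovie : Code → List ℕ → Prop
  | nil : SMovie [] []
  | step {D D' : Code} {T : List ℕ} (h : Classical D) (hs : CStep D D') (hm : SMovie D' T) :
      SMovie D T
  | three {D D' : Code} {T : List ℕ} (h : Classical D) (A B C E : List (Pass ⊕ ℕ))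
      (X Y Z t m b : Pass × Pass) (x y z : ℕ) (hT : TriAt x y z t m b)
      (hP : List.Perm [X, Y, Z] [t, m, b])
      (hD : enc D = A ++ two X.1 X.2 ++ B ++ two Y.1 Y.2 ++ C ++ two Z.1 Z.2 ++ E)
      (hD' : enc D' = A ++ two X.2 X.1 ++ B ++ two Y.2 Y.1 ++ C ++ two Z.2 Z.1 ++ E)
      (h0 : colour x ≠ 0 ∧ colour y ≠ 0 ∧ colour z ≠ 0)
      (hn : (colour x :: colour y :: colour z :: T).Nodup) (hm : SMovie D' T) :
      SMovie D (colour x :: colour y :: colour z :: T)

/-! ### Diagrams with removed triple points -/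

/-- the matching keeps the colours, and only crossings of colour `0` are matched with themselves -/
def CM (P : List Pass) (m : ℕ → ℕ) : Prop :=
  ∀ p ∈ P, colour (m p.crossing) = colour p.crossing ∧
    (colour p.crossing ≠ 0 → m p.crossing ≠ p.crossing)

/-- the planarity condition -/
def NullV (E : Code) (m : ℕ → ℕ) : Prop :=
  ∀ (G : Type) [Group G] (o u : ℕ → G), Valid (passes E) m o u → ∀ b, CN (bv (vals o u E) b)

def InvM (E : Code) (m : ℕ → ℕ) : Prop := Matching (passes E) m ∧ CM (passes E) m ∧ NullV E m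

def InvC (E : Code) : Prop := ∃ m, InvM E m

/-- The boundary of a neighbourhood of a triple point: the three circles in which the three sheets
`i`, `j`, `k` meet a small sphere. `a₁, a₂` are the crossings of `i` and `j`, `b₁, b₂` of `i` and `k`,
`c₁, c₂` of `j` and `k`; `ta`: `i` is above `j`; `tb`: `i` is above `k`; `tc`: `j` is above `k`;
the sign of `a₁` is `!sa`, that of `a₂` is `sa`, etc.; `ei`, `ej`, `ek`: the cyclic orders; `li`,
`lj`, `lk`: the labels. -/
structure Tri where
  (a₁ a₂ b₁ b₂ c₁ c₂ : ℕ)
  (ta tb tc sa sb sc ei ej ek : Bool)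
  (li lj lk : ℕ)

def word4 (e : Bool) (p₁ p₂ q₁ q₂ : Pass) : List Pass :=
  if e then [q₂, p₂, q₁, p₁] else [p₂, q₂, p₁, q₁]

namespace Tri
variable (T : Tri)
def pa₁ : Pass := ⟨T.a₁, T.ta, !T.sa⟩
def pa₂ : Pass := ⟨T.a₂, T.ta, T.sa⟩
def pb₁ : Pass := ⟨T.b₁, T.tb, !T.sb⟩
def pb₂ : Pass := ⟨T.b₂, T.tb, T.sb⟩
def pc₁ : Pass := ⟨T.c₁, T.tc, !T.sc⟩
def pc₂ : Pass := ⟨T.c₂, T.tc, T.sc⟩
/-- the circle of the sheet `i` -/
def wi : List Pass := word4 T.ei T.pa₁ T.pa₂ T.pb₁ T.pb₂
/-- the circle of the sheet `j` -/
def wj : List Pass := word4 T.ej T.pa₁.mate T.pa₂.mate T.pc₁ T.pc₂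
/-- the circle of the sheet `k` -/
def wk : List Pass := word4 T.ek T.pb₁.mate T.pb₂.mate T.pc₁.mate T.pc₂.mate
def code : Code := [(T.wi, T.li), (T.wj, T.lj), (T.wk, T.lk)]
def cols : List ℕ := [colour T.a₁, colour T.b₁, colour T.c₁]
/-- consistency of the heights and of the signs -/
def Ok : Prop :=
  (T.tc = T.tb ∨ T.ta = T.tb) ∧
  xor (xor T.sa (xor T.ei T.ej)) (T.ta == T.tb && T.ta != T.tc) =
    xor (xor T.sb (xor (!T.ei) T.ek)) (T.ta == T.tc) ∧
  xor (xor T.sb (xor (!T.ei) T.ek)) (T.ta == T.tc) =
    xor (xor T.sc (xor T.ej T.ek)) (T.ta != T.tb)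
/-- both crossings of each double curve have one colour -/
def Col : Prop := colour T.a₂ = colour T.a₁ ∧ colour T.b₂ = colour T.b₁ ∧ colour T.c₂ = colour T.c₁
end Tri

/-- all the circles -/
def TC (Ts : List Tri) : Code := Ts.flatMap Tri.code

/-- the strands crossing the edge from `p` to `r` at `p` and `r` are parallel -/
def par (p r : Pass) : Bool := (p.isOver == p.isPos) == (r.isOver == r.isPos)

/-- sign of the crossing `nb`, if `tc` tells whether the strand through `p.mate` is above that
through `r.mate` -/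
def sgn (p r : Pass) (tc : Bool) : Bool :=
  xor tc (xor (p.isOver == p.isPos) (!par p r))

/-- The strand through `p.mate` is moved over the crossing of the strands through `p` and through
`r.mate`, where `p` and `r` are consecutive. -/
def ext (p r : Pass) (tc : Bool) (na nb : ℕ) (q : Pass) : List Pass :=
  if q = p then [r] else if q = r then [p]
  else if q = p.mate then [⟨na, tc, !sgn p r tc⟩, q, ⟨nb, tc, sgn p r tc⟩]
  else if q = r.mate then
    (if par p r then [⟨na, !tc, !sgn p r tc⟩, q, ⟨nb, !tc, sgn p r tc⟩]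
      else [⟨nb, !tc, sgn p r tc⟩, q, ⟨na, !tc, !sgn p r tc⟩])
  else [q]

def out (p r : Pass) (tc : Bool) (na nb : ℕ) (D : Code) : Code :=
  D.map fun C => (C.1.flatMap (ext p r tc na nb), C.2)

/-- the diagram between the move of type II and the move of type III -/
def ext2 (p r : Pass) (tc : Bool) (na nb : ℕ) (q : Pass) : List Pass :=
  if q = p.mate then [⟨na, tc, !sgn p r tc⟩, ⟨nb, tc, sgn p r tc⟩, q]
  else if q = r.mate then
    (if par p r then [⟨na, !tc, !sgn p r tc⟩, ⟨nb, !tc, sgn p r tc⟩, q]
      else [q, ⟨nb, !tc, sgn p r tc⟩, ⟨na, !tc, !sgn p r tc⟩])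
  else [q]

def mid (p r : Pass) (tc : Bool) (na nb : ℕ) (D : Code) : Code :=
  D.map fun C => (C.1.flatMap (ext2 p r tc na nb), C.2)

end Pool.Agent.Y874.TP
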