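import Pool.Agent.Y874.TP.Basic

/-! Project TP: coloured movies yield the invariant. -/

namespace Pool.Agent.Y874.TP

open Pool.Agent.Y468.SR

theorem creid_append {E E' : List (Pass ⊕ ℕ)} (h : CReid E E') (X : List (Pass ⊕ ℕ)) :
    CReid (E ++ X) (E' ++ X) := by
  cases h with
  | one A B p hc =>
    have := CReid.one A (B ++ X) p hc
    simpa only [List.append_assoc] using this
  | twoSame A B C p q h ho hs hc =>
    have := CReid.twoSame A B (C ++ X) p q h ho hs hc
    simpa only [List.append_assoc] using this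
  | twoOpp A B C p q h ho hs hc =>
    have := CReid.twoOpp A B (C ++ X) p q h ho hs hc
    simpa only [List.append_assoc] using this

theorem inv3_mk {D D' : Code} {Ts : List Tri} (hD : WF (passes D)) (hD' : WF (passes D'))
    (h : Inv3 D' Ts) (hf : ∀ p ∈ passes D, ∀ q ∈ passes (TC Ts), q.crossing ≠ p.crossing)
    (hi : InvC (D ++ TC Ts)) : Inv3 D Ts where
  wf := by
    rw [passes_append']
    exact WF.append hD (wf_right hD' h.wf) fun p hp q hq he => hf p hp q hq he.symm
  ok := h.ok
  nz := h.nz
  nd := h.nd
  inv := hi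

theorem cols_relabel (g : ℕ → ℕ) (Ts : List Tri) :
    (Ts.map (Tri.relabel g)).flatMap Tri.cols = Ts.flatMap Tri.cols := by
  rw [List.flatMap_map]; rfl

theorem inv3_relabel {D : Code} {Ts : List Tri} (g : ℕ → ℕ) (h : Inv3 D Ts)
    (hi : InvC (D ++ TC (Ts.map (Tri.relabel g)))) : Inv3 D (Ts.map (Tri.relabel g)) where
  wf := by
    have := h.wf
    rw [passes_append'] at this ⊢
    rw [TC_relabel, passes_relabel (TC Ts) g]
    exact this
  ok := by
    intro T hT
    obtain ⟨T', hT', rfl⟩ := List.mem_map.1 hT
    exact h.ok T' hT'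
  nz := by rw [cols_relabel]; exact h.nz
  nd := by rw [cols_relabel]; exact h.nd
  inv := hi

theorem split_inv {x y : List Pass} {b b' : ℕ} {S : Code} {m : ℕ → ℕ} (hb : b ≠ b')
    (h : InvM ((x, b) :: (y, b') :: S) m) :
    InvM ((x ++ y, b) :: S.map fun C => (C.1, if C.2 = b' then b else C.2)) m := by
  refine invM_of (fun r => ?_) (fun G _ o u hn a => ?_) h
  · simp only [passes_cons, passes_relabel S fun t => if t = b' then b else t]
    simp
  · have e : vals o u (S.map fun C => (C.1, if C.2 = b' then b else C.2)) =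
        (vals o u S).map fun C => (C.1, if C.2 = b' then b else C.2) := by
      simp [vals]
    simp only [vals, List.map_cons] at hn ⊢
    rw [← vals, e, bv_cons]
    by_cases h1 : a = b
    · subst h1
      have h1 := hn a
      have h2 := hn b'
      rw [bv_cons, bv_cons] at h1 h2
      simp only [if_true, hb, Ne.symm hb, if_false] at h1 h2 ⊢
      refine (CN.join h1 h2).perm ?_
      rw [wval_append]
      exact (bv_relabel (vals o u S) a b' hb).symm.cons _
    · by_cases h2 : a = b'
      · subst h2
        rw [bv_relabel_self _ _ _ hb, if_neg (Ne.symm h1)]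
        exact PC.nil
      · rw [bv_relabel_other _ _ _ _ h1 h2, if_neg (Ne.symm h1)]
        have := hn a
        rw [bv_cons, bv_cons] at this
        simpa [Ne.symm h1, Ne.symm h2, vals] using this

theorem cstep_lift (hreid : S_REID) (hren : S_REN) {D D' : Code} {Ts : List Tri}
    (hD : WF (passes D)) (hD' : WF (passes D')) (hs : CStep D D') (h : Inv3 D' Ts) :
    ∃ Ts', Inv3 D Ts' ∧ Ts'.flatMap Tri.cols = Ts.flatMap Tri.cols := by
  obtain ⟨Ts₁, h₁, hc, hf⟩ := freshen hren hD' h (passes D)
  rw [← hc]
  clear h hc Ts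
  rename' Ts₁ => Ts, h₁ => h
  have hW : WF (passes (D ++ TC Ts)) := by
    rw [passes_append']
    exact WF.append hD (wf_right hD' h.wf) fun p hp q hq he => hf p hp q hq he.symm
  have hi := h.inv
  cases hs with
  | perm _ _ hp =>
    refine ⟨Ts, inv3_mk hD hD' h hf ?_, rfl⟩
    exact invC_perm (hp.symm.append_right _) hi
  | rename f _ hfi hfc =>
    refine ⟨Ts, inv3_mk hD hD' h hf ?_, rfl⟩
    classical
    set g : ℕ → ℕ := fun c => if ∃ p ∈ passes D, p.crossing = c then f c else c with hg
    have g1 : ∀ p ∈ passes D, g p.crossing = f p.crossing := by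
      intro p hp; rw [hg]; simp only; rw [if_pos ⟨p, hp, rfl⟩]
    have g2 : ∀ p ∈ passes (TC Ts), g p.crossing = p.crossing := by
      intro p hp
      rw [hg]; simp only
      rw [if_neg]
      rintro ⟨q, hq, h1⟩
      exact hf q hq p hp h1.symm
    have g3 : ∀ p ∈ passes D, ∀ q ∈ passes (TC Ts), f p.crossing ≠ q.crossing := by
      intro p hp q hq he
      have h1 : (⟨f p.crossing, p.isOver, p.isPos⟩ : Pass) ∈ passes (renamed f D) :=
        mem_renamed.2 ⟨p, hp, rfl⟩
      exact sep hD' h.wf h1 hq he.symm
    have e : renamed g (D ++ TC Ts) = renamed f D ++ TC Ts := by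
      rw [renamed_append]
      congr 1
      · unfold renamed
        refine List.map_congr_left fun C hC => ?_
        have : (C.1.map fun p => (⟨g p.crossing, p.isOver, p.isPos⟩ : Pass)) =
            C.1.map fun p => (⟨f p.crossing, p.isOver, p.isPos⟩ : Pass) :=
          List.map_congr_left fun p hp => by rw [g1 p (mem_passes.2 ⟨C, hC, hp⟩)]
        rw [this]
      · unfold renamed
        conv_rhs => rw [← List.map_id (TC Ts)]
        refine List.map_congr_left fun C hC => ?_
        have : (C.1.map fun p => (⟨g p.crossing, p.isOver, p.isPos⟩ : Pass)) = C.1 := by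
          conv_rhs => rw [← List.map_id C.1]
          exact List.map_congr_left fun p hp => by
            rw [g2 p (mem_passes.2 ⟨C, hC, hp⟩)]; rfl
        rw [this]; rfl
    refine (hren g _ ?_ ?_).2 (by rw [e]; exact hi)
    · intro p hp q hq he
      rw [passes_append', List.mem_append] at hp hq
      rcases hp with hp | hp <;> rcases hq with hq | hq
      · rw [g1 p hp, g1 q hq] at he; exact hfi p hp q hq he
      · rw [g1 p hp, g2 q hq] at he; exact absurd he (g3 p hp q hq)
      · rw [g2 p hp, g1 q hq] at he; exact absurd he.symm (g3 q hq p hp)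
      · rwa [g2 p hp, g2 q hq] at he
    · intro p hp
      rw [passes_append', List.mem_append] at hp
      rcases hp with hp | hp
      · rw [g1 p hp]; exact hfc p hp
      · rw [g2 p hp]
  | rotate x y b R =>
    refine ⟨Ts, inv3_mk hD hD' h hf ?_, rfl⟩
    obtain ⟨m, hm⟩ := hi
    exact ⟨m, by simpa using invM_rotate (R := R ++ TC Ts) (by simpa using hm)⟩
  | reid _ _ hr =>
    refine ⟨Ts, inv3_mk hD hD' h hf ?_, rfl⟩
    refine (hreid _ _ hW ?_).2 hi
    rw [enc_append, enc_append]
    exact creid_append hr _
  | reidInv _ _ hr =>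
    refine ⟨Ts, inv3_mk hD hD' h hf ?_, rfl⟩
    refine (hreid _ _ h.wf ?_).1 hi
    rw [enc_append, enc_append]
    exact creid_append hr _
  | death b R hb =>
    refine ⟨Ts, inv3_mk hD hD' h hf ?_, rfl⟩
    obtain ⟨m, hm⟩ := hi
    refine ⟨m, invM_of (fun r => ?_) (fun G _ o u hn a => ?_) hm⟩
    · simp
    · have := hn a
      simp only [vals, List.map_cons, List.cons_append, bv_cons, wval_nil] at this ⊢
      split_ifs
      · exact CN.one_cons.2 this
      · exact this
  | birth b R hb =>
    refine ⟨Ts, inv3_mk hD hD' h hf ?_, rfl⟩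
    obtain ⟨m, hm⟩ := hi
    refine ⟨m, invM_of (fun r => ?_) (fun G _ o u hn a => ?_) hm⟩
    · simp
    · have := hn a
      simp only [vals, List.map_cons, List.cons_append, bv_cons, wval_nil] at this ⊢
      split_ifs at this
      · exact CN.one_cons.1 this
      · exact this
  | split x y b b' R hb =>
    obtain ⟨m, hm⟩ := hi
    have h2 := split_inv (S := R ++ TC Ts) hb hm
    rw [List.map_append, ← TC_relabel (fun t => if t = b' then b else t) Ts] at h2
    refine ⟨Ts.map (Tri.relabel fun t => if t = b' then b else t), ?_, cols_relabel _ Ts⟩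
    refine ⟨?_, fun T hT => ?_, ?_, ?_, m, h2⟩
    · rw [passes_append'] at hW ⊢
      rw [TC_relabel, passes_relabel (TC Ts) fun t => if t = b' then b else t]
      exact hW
    · obtain ⟨T', hT', rfl⟩ := List.mem_map.1 hT
      exact h.ok T' hT'
    · rw [cols_relabel]; exact h.nz
    · rw [cols_relabel]; exact h.nd
  | merge x y b R =>
    refine ⟨Ts, inv3_mk hD hD' h hf ?_, rfl⟩
    obtain ⟨m, hm⟩ := hi
    refine ⟨m, invM_of (fun r => ?_) (fun G _ o u hn a => ?_) hm⟩
    · simp
    · have := hn a
      simp only [vals, List.map_cons, List.cons_append, bv_cons, wval_append] at this ⊢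
      split_ifs at this ⊢ with h
      · exact this.cut
      · exact this

theorem SMovie.classical {D : Code} {T : List ℕ} (h : SMovie D T) : Classical D := by
  cases h with
  | nil => exact classical_empty rfl
  | step h _ _ => exact h
  | three h => exact h

theorem wf_code {T : Tri} (h : T.names.Nodup) : WF (passes T.code) := by
  refine ⟨fun p hp => ?_, ?_⟩
  · rw [mem_code] at hp ⊢
    rcases hp with rfl | rfl | rfl | rfl | rfl | rfl | rfl | rfl | rfl | rfl | rfl | rfl <;>
      simp only [mate_mate'] <;> simp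
  · obtain ⟨a₁, a₂, b₁, b₂, c₁, c₂, ta, tb, tc, sa, sb, sc, ei, ej, ek, li, lj, lk⟩ := T
    simp only [Tri.names, List.nodup_cons, List.mem_cons, List.not_mem_nil, or_false, not_or,
      not_false_eq_true, List.nodup_nil, and_true] at h
    obtain ⟨⟨h1, h2, h3, h4, h5⟩, ⟨h6, h7, h8, h9⟩, ⟨h10, h11, h12⟩, ⟨h13, h14⟩, h15⟩ := h
    cases ei <;> cases ej <;> cases ek <;>
    simp [Tri.code, Tri.wi, Tri.wj, Tri.wk, word4, Tri.pa₁, Tri.pa₂, Tri.pb₁, Tri.pb₂, Tri.pc₁,
      Tri.pc₂, Pass.mate, h1, h2, h3, h4, h5, h6, h7, h8, h9, h10, h11, h12, h13, h14, h15,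
      Ne.symm h1, Ne.symm h2, Ne.symm h3, Ne.symm h4, Ne.symm h5, Ne.symm h6, Ne.symm h7,
      Ne.symm h8, Ne.symm h9, Ne.symm h10, Ne.symm h11, Ne.symm h12, Ne.symm h13, Ne.symm h14,
      Ne.symm h15]

theorem smovie_inv (hreid : S_REID) (hren : S_REN) (hthree : S_THREE) {D : Code} {T : List ℕ}
    (h : SMovie D T) : ∃ Ts, Inv3 D Ts ∧ Ts.flatMap Tri.cols = T := by
  induction h with
  | nil =>
    refine ⟨[], ⟨?_, by simp, by simp, by simp, ?_⟩, rfl⟩
    · exact ⟨by simp [TC], by simp [TC]⟩
    · refine ⟨id, fun p hp => absurd hp (by simp [TC]), fun p hp => absurd hp (by simp [TC]),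
        fun G _ o u _ b => ?_⟩
      exact PC.nil
  | @step D D' T hD hs hm ih =>
    obtain ⟨Ts, h1, h2⟩ := ih
    obtain ⟨Ts', h3, h4⟩ := cstep_lift hreid hren hD.1 hm.classical.1 hs h1
    exact ⟨Ts', h3, h4.trans h2⟩
  | @three D D' T hD A B C E X Y Z t m b x y z hT hP hE hE' h0 hn hm ih =>
    obtain ⟨Ts, h1, h2⟩ := ih
    have hperm : (passes D).Perm (passes D') := by
      rw [← pl_enc, ← pl_enc, hE, hE', List.perm_iff_count]
      intro a
      simp only [pl_append, pl_two, List.count_append, List.count_cons, List.count_nil]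
      omega
    have hW : WF (passes (D ++ TC Ts)) := by
      have := h1.wf
      rw [passes_append'] at this ⊢
      exact WF.perm (List.Perm.append_right _ hperm.symm) this
    obtain ⟨K, hK⟩ := exists_bound (passes (D ++ TC Ts))
    have hfr : ∀ c k, ∀ p ∈ passes (D ++ TC Ts), p.crossing ≠ Nat.pair c (K + k) := by
      intro c k p hp he
      have := hK p hp
      rw [he, Nat.unpair_pair] at this
      simp only at this
      omega
    have hcol : ∀ c k, colour (Nat.pair c (K + k)) = c := fun c k => by
      rw [colour, Nat.unpair_pair]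
    simp only [List.nodup_cons, List.mem_cons, not_or] at hn
    obtain ⟨⟨n1, n2, n3⟩, ⟨n4, n5⟩, n6, n7⟩ := hn
    have hnd : [Nat.pair (colour x) (K + 0), Nat.pair (colour x) (K + 1),
        Nat.pair (colour y) (K + 0), Nat.pair (colour y) (K + 1), Nat.pair (colour z) (K + 0),
        Nat.pair (colour z) (K + 1)].Nodup := by
      simp only [List.nodup_cons, List.mem_cons, List.not_mem_nil, or_false, not_or,
        not_false_eq_true, List.nodup_nil, and_true, Nat.pair_eq_pair, not_and]
      refine ⟨⟨fun _ => by omega, fun h => absurd h n1, fun h => absurd h n1,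
        fun h => absurd h n2, fun h => absurd h n2⟩, ⟨fun h => absurd h n1, fun h => absurd h n1,
        fun h => absurd h n2, fun h => absurd h n2⟩, ⟨fun _ => by omega, fun h => absurd h n4,
        fun h => absurd h n4⟩, ⟨fun h => absurd h n4, fun h => absurd h n4⟩, fun _ => by omega⟩
    obtain ⟨T', t1, t2, t3, t4, t5, t6, t7, -, t9⟩ := hthree D D' (TC Ts) A B C E X Y Z t m b x y z
      (Nat.pair (colour x) (K + 0)) (Nat.pair (colour x) (K + 1)) (Nat.pair (colour y) (K + 0))
      (Nat.pair (colour y) (K + 1)) (Nat.pair (colour z) (K + 0)) (Nat.pair (colour z) (K + 1))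
      hT hP hE hE' hW hnd (by
        intro c hc
        simp only [List.mem_cons, List.not_mem_nil, or_false] at hc
        rcases hc with rfl | rfl | rfl | rfl | rfl | rfl <;> exact hfr _ _)
      (hcol _ _) (hcol _ _) (hcol _ _) (hcol _ _) (hcol _ _) (hcol _ _) h1.inv
    have hnames : T'.names = [Nat.pair (colour x) (K + 0), Nat.pair (colour x) (K + 1),
        Nat.pair (colour y) (K + 0), Nat.pair (colour y) (K + 1), Nat.pair (colour z) (K + 0),
        Nat.pair (colour z) (K + 1)] := by
      simp only [Tri.names, t2, t3, t4, t5, t6, t7]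
    have hcols : T'.cols = [colour x, colour y, colour z] := by
      simp only [Tri.cols, t2, t4, t6, hcol]
    have hcode : ∀ p ∈ passes T'.code, p.crossing ∈ T'.names := by
      intro p hp
      rw [mem_code] at hp
      rcases hp with rfl | rfl | rfl | rfl | rfl | rfl | rfl | rfl | rfl | rfl | rfl | rfl <;>
        simp [Tri.names, Tri.pa₁, Tri.pa₂, Tri.pb₁, Tri.pb₂, Tri.pc₁, Tri.pc₂, Pass.mate]
    have e1 : (T' :: Ts).flatMap Tri.cols = colour x :: colour y :: colour z :: T := by
      rw [List.flatMap_cons, hcols, h2]; rfl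
    refine ⟨T' :: Ts, ⟨?_, ?_, ?_, ?_, t9⟩, e1⟩
    · have h3 : WF (passes T'.code ++ passes (D ++ TC Ts)) := by
        refine WF.append (wf_code (by rw [hnames]; exact hnd)) hW fun p hp q hq he => ?_
        have := hcode p hp
        rw [hnames] at this
        simp only [List.mem_cons, List.not_mem_nil, or_false] at this
        rw [he] at this
        rcases this with h | h | h | h | h | h <;> exact hfr _ _ q hq h
      refine WF.perm ?_ h3
      rw [TC_cons, passes_append', passes_append', passes_append', ← List.append_assoc,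
        ← List.append_assoc]
      exact List.Perm.append_right _ List.perm_append_comm
    · intro T₁ hT₁
      rcases List.mem_cons.1 hT₁ with rfl | hT₁
      · refine ⟨t1, ?_⟩
        unfold Tri.Col
        rw [t2, t3, t4, t5, t6, t7]
        simp only [hcol, and_self]
      · exact h1.ok T₁ hT₁
    · rw [e1]
      intro c hc
      simp only [List.mem_cons] at hc
      rcases hc with rfl | rfl | rfl | hc
      · exact h0.1
      · exact h0.2.1
      · exact h0.2.2
      · exact h1.nz c (by rw [h2]; exact hc)
    · rw [e1]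
      simp only [List.nodup_cons, List.mem_cons, not_or]
      exact ⟨⟨n1, n2, n3⟩, ⟨n4, n5⟩, n6, n7⟩

end Pool.Agent.Y874.TP
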