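import Pool.Agent.Y874.TP.Lift

/-! Project TP: symmetries of the circles of a triple point. -/

namespace Pool.Agent.Y874.TP

open Pool.Agent.Y468.SR

/-- the codes have the same passages and equivalent planarity conditions -/
def CEq (E E' : Code) : Prop := (∀ r, r ∈ passes E ↔ r ∈ passes E') ∧
  (passes E).Perm (passes E') ∧
  ∀ (G : Type) [Group G] (o u : ℕ → G) (b : ℕ) (L : List G),
    CN (bv (vals o u E) b ++ L) → CN (bv (vals o u E') b ++ L)

theorem CEq.refl (E : Code) : CEq E E :=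
  ⟨fun _ => Iff.rfl, List.Perm.refl _, fun _ _ _ _ _ _ h => h⟩

theorem CEq.trans {E E' E'' : Code} (h : CEq E E') (h' : CEq E' E'') : CEq E E'' :=
  ⟨fun r => (h.1 r).trans (h'.1 r), h.2.1.trans h'.2.1,
    fun G _ o u b L hL => h'.2.2 G o u b L (h.2.2 G o u b L hL)⟩

theorem CEq.of_perm {E E' : Code} (h : E.Perm E') : CEq E E' :=
  ⟨fun r => (passes_perm h).mem_iff, passes_perm h, fun G _ o u b L hL =>
    hL.perm ((bv_perm (h.map _) b).append_right _)⟩

theorem CEq.cons {E E' : Code} (C : List Pass × ℕ) (h : CEq E E') : CEq (C :: E) (C :: E') := by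
  refine ⟨fun r => ?_, ?_, fun G _ o u b L hL => ?_⟩
  · simp only [passes_cons, List.mem_append, h.1 r]
  · rw [passes_cons, passes_cons]; exact h.2.1.append_left _
  · simp only [vals, List.map_cons, bv_cons] at hL ⊢
    split_ifs at hL ⊢ with hb
    · refine CN.perm (List.perm_middle) (h.2.2 G o u b (wval o u C.1 :: L) ?_)
      exact CN.perm List.perm_middle.symm hL
    · exact h.2.2 G o u b L hL

theorem CEq.rot {x y : List Pass} {b : ℕ} {E : Code} : CEq ((x ++ y, b) :: E) ((y ++ x, b) :: E) := by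
  refine ⟨fun r => ?_, ?_, fun G _ o u a L hL => ?_⟩
  · simp only [passes_cons, List.mem_append]; tauto
  · rw [passes_cons, passes_cons]
    exact List.Perm.append_right _ List.perm_append_comm
  · simp only [vals, List.map_cons, bv_cons] at hL ⊢
    split_ifs at hL ⊢ with hb
    · have e := CN.conj_head hL (wval o u y)
      simpa [mul_assoc] using e
    · exact hL

theorem invM_ceq {D E E' O : Code} {m : ℕ → ℕ} (h : CEq E E') (hi : InvM (D ++ (E ++ O)) m) :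
    InvM (D ++ (E' ++ O)) m := by
  have h1 : InvM (E ++ (D ++ O)) m := invM_perm (by
    rw [← List.append_assoc, ← List.append_assoc]
    exact List.Perm.append_right _ List.perm_append_comm) hi
  have h2 : InvM (E' ++ (D ++ O)) m := by
    refine invM_of (fun r => ?_) (fun G _ o u hn b => ?_) h1
    · simp only [passes_append', List.mem_append, h.1 r]
    · have := hn b
      rw [vals_append, bv_append] at this ⊢
      exact h.2.2 G o u b _ this
  exact invM_perm (by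
    rw [← List.append_assoc, ← List.append_assoc]
    exact List.Perm.append_right _ List.perm_append_comm) h2

theorem wf_ceq {D E E' O : Code} (h : CEq E E') (hi : WF (passes (D ++ (E ++ O)))) :
    WF (passes (D ++ (E' ++ O))) := by
  refine WF.perm ?_ hi
  simp only [passes_append']
  exact List.Perm.append_left _ (h.2.1.append_right _)

/-- rotated words -/
def RotW (w w' : List Pass) : Prop := ∃ x y, w = x ++ y ∧ w' = y ++ x

theorem RotW.ceq {w w' : List Pass} (h : RotW w w') {b : ℕ} {E : Code} :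
    CEq ((w, b) :: E) ((w', b) :: E) := by
  obtain ⟨x, y, rfl, rfl⟩ := h
  exact CEq.rot

theorem RotW.refl (w : List Pass) : RotW w w := ⟨[], w, rfl, by simp⟩

theorem ceq_three {w₁ w₂ w₃ w₁' w₂' w₃' : List Pass} {b₁ b₂ b₃ : ℕ} (h₁ : RotW w₁ w₁')
    (h₂ : RotW w₂ w₂') (h₃ : RotW w₃ w₃') :
    CEq [(w₁, b₁), (w₂, b₂), (w₃, b₃)] [(w₁', b₁), (w₂', b₂), (w₃', b₃)] :=
  (h₁.ceq.trans (CEq.cons _ h₂.ceq)).trans (CEq.cons _ (CEq.cons _ h₃.ceq))

theorem word4_swap₁ (e : Bool) (p₁ p₂ q₁ q₂ : Pass) :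
    RotW (word4 e p₁ p₂ q₁ q₂) (word4 (!e) p₂ p₁ q₁ q₂) := by
  cases e
  · exact ⟨[p₂], [q₂, p₁, q₁], rfl, rfl⟩
  · exact ⟨[q₂, p₂, q₁], [p₁], rfl, rfl⟩

theorem word4_swap₂ (e : Bool) (p₁ p₂ q₁ q₂ : Pass) :
    RotW (word4 e p₁ p₂ q₁ q₂) (word4 (!e) p₁ p₂ q₂ q₁) := by
  cases e
  · exact ⟨[p₂, q₂, p₁], [q₁], rfl, rfl⟩
  · exact ⟨[q₂], [p₂, q₁, p₁], rfl, rfl⟩

theorem word4_swap₃ (e : Bool) (p₁ p₂ q₁ q₂ : Pass) :
    word4 (!e) q₁ q₂ p₁ p₂ = word4 e p₁ p₂ q₁ q₂ := by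
  cases e <;> rfl

namespace Tri

def swapA (T : Tri) : Tri :=
  { T with a₁ := T.a₂, a₂ := T.a₁, sa := !T.sa, ei := !T.ei, ej := !T.ej }

def swapB (T : Tri) : Tri :=
  { T with b₁ := T.b₂, b₂ := T.b₁, sb := !T.sb, ei := !T.ei, ek := !T.ek }

def tij (T : Tri) : Tri :=
  { a₁ := T.a₁, a₂ := T.a₂, b₁ := T.c₁, b₂ := T.c₂, c₁ := T.b₁, c₂ := T.b₂,
    ta := !T.ta, tb := T.tc, tc := T.tb, sa := T.sa, sb := T.sc, sc := T.sb,
    ei := T.ej, ej := T.ei, ek := !T.ek, li := T.lj, lj := T.li, lk := T.lk }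

def tjk (T : Tri) : Tri :=
  { a₁ := T.b₁, a₂ := T.b₂, b₁ := T.a₁, b₂ := T.a₂, c₁ := T.c₁, c₂ := T.c₂,
    ta := T.tb, tb := T.ta, tc := !T.tc, sa := T.sb, sb := T.sa, sc := T.sc,
    ei := !T.ei, ej := T.ek, ek := T.ej, li := T.li, lj := T.lk, lk := T.lj }

/-- the two descriptions belong to the same circles -/
structure TR (T T' : Tri) : Prop where
  ok : T.Ok → T'.Ok
  col : T.Col → T'.Col
  cols : T.Col → T.cols.Perm T'.cols
  ceq : CEq T.code T'.code

theorem TR.refl (T : Tri) : TR T T := ⟨id, id, fun _ => List.Perm.refl _, CEq.refl _⟩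

theorem TR.trans {T T' T'' : Tri} (h : TR T T') (h' : TR T' T'') : TR T T'' :=
  ⟨fun k => h'.ok (h.ok k), fun k => h'.col (h.col k),
    fun k => (h.cols k).trans (h'.cols (h.col k)), h.ceq.trans h'.ceq⟩

theorem tr_swapA (T : Tri) : TR T T.swapA where
  ok := by
    obtain ⟨a₁, a₂, b₁, b₂, c₁, c₂, ta, tb, tc, sa, sb, sc, ei, ej, ek, li, lj, lk⟩ := T
    simp only [Ok, swapA]
    revert ta tb tc sa sb sc ei ej ek; decide
  col := by
    rintro ⟨h1, h2, h3⟩; exact ⟨h1.symm, h2, h3⟩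
  cols := by
    rintro ⟨h1, h2, h3⟩
    simp only [Tri.cols, swapA, h1]; exact List.Perm.refl _
  ceq := by
    have h1 : T.swapA.pa₁ = T.pa₂ := by simp [pa₁, pa₂, swapA]
    have h2 : T.swapA.pa₂ = T.pa₁ := by simp [pa₁, pa₂, swapA]
    simp only [Tri.code, Tri.wi, Tri.wj, Tri.wk, h1, h2]
    exact ceq_three (word4_swap₁ _ _ _ _ _) (word4_swap₁ _ _ _ _ _) (RotW.refl _)

theorem tr_swapB (T : Tri) : TR T T.swapB where
  ok := by
    obtain ⟨a₁, a₂, b₁, b₂, c₁, c₂, ta, tb, tc, sa, sb, sc, ei, ej, ek, li, lj, lk⟩ := T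
    simp only [Ok, swapB]
    revert ta tb tc sa sb sc ei ej ek; decide
  col := by
    rintro ⟨h1, h2, h3⟩; exact ⟨h1, h2.symm, h3⟩
  cols := by
    rintro ⟨h1, h2, h3⟩
    simp only [Tri.cols, swapB, h2]; exact List.Perm.refl _
  ceq := by
    have h1 : T.swapB.pb₁ = T.pb₂ := by simp [pb₁, pb₂, swapB]
    have h2 : T.swapB.pb₂ = T.pb₁ := by simp [pb₁, pb₂, swapB]
    simp only [Tri.code, Tri.wi, Tri.wj, Tri.wk, h1, h2]
    exact ceq_three (word4_swap₂ _ _ _ _ _) (RotW.refl _) (word4_swap₁ _ _ _ _ _)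

theorem tr_tij (T : Tri) : TR T T.tij where
  ok := by
    obtain ⟨a₁, a₂, b₁, b₂, c₁, c₂, ta, tb, tc, sa, sb, sc, ei, ej, ek, li, lj, lk⟩ := T
    simp only [Ok, tij]
    revert ta tb tc sa sb sc ei ej ek; decide
  col := by
    rintro ⟨h1, h2, h3⟩; exact ⟨h1, h3, h2⟩
  cols := by
    intro _
    simp only [Tri.cols, tij]; exact List.Perm.cons _ (List.Perm.swap _ _ _)
  ceq := by
    have h1 : T.tij.wi = T.wj := rfl
    have h2 : T.tij.wj = T.wi := by
      simp [wi, wj, tij, pa₁, pa₂, pb₁, pb₂, pc₁, pc₂, Pass.mate]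
    have h3 : T.tij.wk = T.wk := word4_swap₃ _ _ _ _ _
    simp only [Tri.code, h1, h2, h3]
    exact CEq.of_perm (List.Perm.swap _ _ _)

theorem tr_tjk (T : Tri) : TR T T.tjk where
  ok := by
    obtain ⟨a₁, a₂, b₁, b₂, c₁, c₂, ta, tb, tc, sa, sb, sc, ei, ej, ek, li, lj, lk⟩ := T
    simp only [Ok, tjk]
    revert ta tb tc sa sb sc ei ej ek; decide
  col := by
    rintro ⟨h1, h2, h3⟩; exact ⟨h2, h1, h3⟩
  cols := by
    intro _
    simp only [Tri.cols, tjk]; exact List.Perm.swap _ _ _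
  ceq := by
    have h1 : T.tjk.wi = T.wi := word4_swap₃ _ _ _ _ _
    have h2 : T.tjk.wj = T.wk := rfl
    have h3 : T.tjk.wk = T.wj := by
      simp [wk, wj, tjk, pa₁, pa₂, pb₁, pb₂, pc₁, pc₂, Pass.mate]
    simp only [Tri.code, h1, h2, h3]
    exact CEq.of_perm (List.Perm.cons _ (List.Perm.swap _ _ _))

theorem cyc4 {r p a b c d : Pass} (h : Cyc r p [a, b, c, d]) :
    (r = a ∧ p = b) ∨ (r = b ∧ p = c) ∨ (r = c ∧ p = d) ∨ (r = d ∧ p = a) := by
  rcases h with ⟨u, v, h⟩ | ⟨u, h⟩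
  · rcases u with _ | ⟨u₁, _ | ⟨u₂, _ | ⟨u₃, u⟩⟩⟩
    · simp only [List.nil_append, List.cons.injEq] at h
      exact Or.inl ⟨h.1.symm, h.2.1.symm⟩
    · simp only [List.nil_append, List.cons_append, List.cons.injEq] at h
      exact Or.inr (Or.inl ⟨h.2.1.symm, h.2.2.1.symm⟩)
    · simp only [List.nil_append, List.cons_append, List.cons.injEq] at h
      exact Or.inr (Or.inr (Or.inl ⟨h.2.2.1.symm, h.2.2.2.1.symm⟩))
    · exfalso
      have := congrArg List.length h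
      simp only [List.length_cons, List.length_nil, List.length_append] at this
      omega
  · simp only [List.cons.injEq] at h
    obtain ⟨h1, h2⟩ := h
    have h3 : [b, c] ++ [d] = u ++ [r] := h2
    have := List.append_inj' h3 rfl
    simp only [List.cons.injEq, and_true] at this
    exact Or.inr (Or.inr (Or.inr ⟨this.2.symm, h1.symm⟩))

theorem normal_i {T : Tri} {r p : Pass} (h : Cyc r p T.wi) :
    ∃ T' : Tri, T'.ei = true ∧ p = T'.pa₁ ∧ r = T'.pb₁ ∧ TR T T' := by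
  unfold wi word4 at h
  split_ifs at h with he
  · rcases cyc4 h with ⟨rfl, rfl⟩ | ⟨rfl, rfl⟩ | ⟨rfl, rfl⟩ | ⟨rfl, rfl⟩
    · exact ⟨T.swapA.swapB, by simp [swapA, swapB, he], by simp [swapA, swapB, pa₁, pa₂],
        by simp [swapA, swapB, pb₁, pb₂], (tr_swapA T).trans (tr_swapB _)⟩
    · exact ⟨T.tjk.swapB, by simp [tjk, swapB, he], by simp [tjk, swapB, pa₁, pb₁],
        by simp [tjk, swapB, pb₁, pa₂], (tr_tjk T).trans (tr_swapB _)⟩
    · exact ⟨T, he, rfl, rfl, TR.refl T⟩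
    · exact ⟨T.tjk.swapA, by simp [tjk, swapA, he], by simp [tjk, swapA, pa₁, pb₂],
        by simp [tjk, swapA, pb₁, pa₁], (tr_tjk T).trans (tr_swapA _)⟩
  · have he : T.ei = false := by simpa using he
    rcases cyc4 h with ⟨rfl, rfl⟩ | ⟨rfl, rfl⟩ | ⟨rfl, rfl⟩ | ⟨rfl, rfl⟩
    · exact ⟨T.tjk.swapA.swapB, by simp [tjk, swapA, swapB, he],
        by simp [tjk, swapA, swapB, pa₁, pb₂], by simp [tjk, swapA, swapB, pb₁, pa₂],
        ((tr_tjk T).trans (tr_swapA _)).trans (tr_swapB _)⟩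
    · exact ⟨T.swapB, by simp [swapB, he], by simp [swapB, pa₁], by simp [swapB, pb₁, pb₂],
        tr_swapB T⟩
    · exact ⟨T.tjk, by simp [tjk, he], by simp [tjk, pa₁, pb₁], by simp [tjk, pb₁, pa₁], tr_tjk T⟩
    · exact ⟨T.swapA, by simp [swapA, he], by simp [swapA, pa₁, pa₂], by simp [swapA, pb₁],
        tr_swapA T⟩

theorem normal {T : Tri} {W : List Pass} (hW : W ∈ [T.wi, T.wj, T.wk]) {r p : Pass}
    (h : Cyc r p W) : ∃ T' : Tri, T'.ei = true ∧ p = T'.pa₁ ∧ r = T'.pb₁ ∧ TR T T' := by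
  simp only [List.mem_cons, List.not_mem_nil, or_false] at hW
  rcases hW with rfl | rfl | rfl
  · exact normal_i h
  · obtain ⟨T', h1, h2, h3, h4⟩ := normal_i (T := T.tij) h
    exact ⟨T', h1, h2, h3, (tr_tij T).trans h4⟩
  · obtain ⟨T', h1, h2, h3, h4⟩ := normal_i (T := T.tjk.tij) h
    exact ⟨T', h1, h2, h3, ((tr_tjk T).trans (tr_tij _)).trans h4⟩

end Tri

end Pool.Agent.Y874.TP
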