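import Pool.Agent.Y874.TP.Defs
import Pool.Agent.Y468.SR.Rel

/-! Statements of the lemmas of project TP. -/

namespace Pool.Agent.Y874.TP

open Pool.Agent.Y468.SR

/-- TP-REID: moves I and II keep the coloured invariant (adapt `Reide.lean` and `reid_inv`) -/
def S_REID : Prop := ∀ D D' : Code, WellFormed D → CReid (enc D) (enc D') → (InvC D ↔ InvC D')

/-- TP-REN: renaming (adapt `inv_renamed`) -/
def S_REN : Prop := ∀ (f : ℕ → ℕ) (D : Code),
  (∀ p ∈ passes D, ∀ q ∈ passes D, f p.crossing = f q.crossing → p.crossing = q.crossing) →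
  (∀ p ∈ passes D, colour (f p.crossing) = colour p.crossing) →
  (InvC D ↔ InvC (renamed f D))

/-- TP-THREE: a move of type III is undone at the cost of three circles -/
def S_THREE : Prop := ∀ (D D' O : Code) (A B C E : List (Pass ⊕ ℕ)) (X Y Z t m b : Pass × Pass)
  (x y z x₁ x₂ y₁ y₂ z₁ z₂ : ℕ), TriAt x y z t m b → List.Perm [X, Y, Z] [t, m, b] →
  enc D = A ++ two X.1 X.2 ++ B ++ two Y.1 Y.2 ++ C ++ two Z.1 Z.2 ++ E →
  enc D' = A ++ two X.2 X.1 ++ B ++ two Y.2 Y.1 ++ C ++ two Z.2 Z.1 ++ E →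
  WF (passes (D ++ O)) →
  [x₁, x₂, y₁, y₂, z₁, z₂].Nodup →
  (∀ c ∈ [x₁, x₂, y₁, y₂, z₁, z₂], ∀ p ∈ passes (D ++ O), p.crossing ≠ c) →
  colour x₁ = colour x → colour x₂ = colour x → colour y₁ = colour y → colour y₂ = colour y →
  colour z₁ = colour z → colour z₂ = colour z →
  InvC (D' ++ O) →
  ∃ T : Tri, T.Ok ∧ T.a₁ = x₁ ∧ T.a₂ = x₂ ∧ T.b₁ = y₁ ∧ T.b₂ = y₂ ∧ T.c₁ = z₁ ∧ T.c₂ = z₂ ∧
    (T.li ∈ D.map Prod.snd ∧ T.lj ∈ D.map Prod.snd ∧ T.lk ∈ D.map Prod.snd) ∧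
    InvC (D ++ (T.code ++ O))

/-- TP-OUT: a triple point is pushed through the boundary (algebra) -/
def S_OUT : Prop := ∀ (D O : Code) (T : Tri) (m : ℕ → ℕ) (p r : Pass) (C : List Pass × ℕ)
  (a c : List Pass) (na nb : ℕ), T.Ok → T.Col → T.ei = true →
  WF (passes (D ++ (T.code ++ O))) → InvM (D ++ (T.code ++ O)) m →
  C ∈ D → C.1 = a ++ p :: r :: c →
  m p.crossing = T.a₁ → p.isOver = T.ta → m r.crossing = T.b₁ → r.isOver = T.tb →
  na ≠ nb → (∀ q ∈ passes (D ++ (T.code ++ O)), q.crossing ≠ na ∧ q.crossing ≠ nb) →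
  colour na = colour T.c₁ → colour nb = colour T.c₁ →
  WF (passes (out p r T.tc na nb D ++ O)) ∧ InvC (out p r T.tc na nb D ++ O)

/-- TP-MID: planarity of the diagram after the move of type II -/
def S_MID : Prop := ∀ (D : Code) (p r : Pass) (tc : Bool) (C : List Pass × ℕ) (a c : List Pass)
  (na nb : ℕ), Classical D → C ∈ D → C.1 = a ++ p :: r :: c → p.crossing ≠ r.crossing →
  na ≠ nb → (∀ q ∈ passes D, q.crossing ≠ na ∧ q.crossing ≠ nb) →
  Classical (mid p r tc na nb D)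

/-- TP-OUTP: planarity of the diagram after the move of type III -/
def S_OUTP : Prop := ∀ (D : Code) (p r : Pass) (tc : Bool) (C : List Pass × ℕ) (a c : List Pass)
  (na nb : ℕ), Classical D → C ∈ D → C.1 = a ++ p :: r :: c → p.crossing ≠ r.crossing →
  na ≠ nb → (∀ q ∈ passes D, q.crossing ≠ na ∧ q.crossing ≠ nb) →
  Classical (out p r tc na nb D)

/-- TP-MOVE: the two moves -/
def S_MOVE : Prop := ∀ (D : Code) (p r : Pass) (tc : Bool) (C : List Pass × ℕ) (a c : List Pass)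
  (na nb : ℕ), WellFormed D → C ∈ D → C.1 = a ++ p :: r :: c → p.crossing ≠ r.crossing →
  (tc = r.isOver ∨ p.isOver = r.isOver) →
  na ≠ nb → (∀ q ∈ passes D, q.crossing ≠ na ∧ q.crossing ≠ nb) →
  Reid true (enc (mid p r tc na nb D)) (enc D) ∧
    Reid true (enc (mid p r tc na nb D)) (enc (out p r tc na nb D))

/-- TP-CUT: cutting along a double curve (algebra) -/
def S_CUT : Prop := ∀ (p q : Pass) (y z : List Pass) (b b' : ℕ) (S : Code) (m : ℕ → ℕ),
  WF (passes ((p :: (y ++ q :: z), b) :: S)) → InvM ((p :: (y ++ q :: z), b) :: S) m →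
  m p.crossing ≠ p.crossing → q.crossing = m p.crossing → q.isOver = p.isOver →
  b ≠ b' → (∀ C ∈ S, C.2 ≠ b') →
  ∃ S' : Code, S'.map Prod.fst = S.map Prod.fst ∧
    List.Forall₂ (fun C' C : List Pass × ℕ => C'.2 = C.2 ∨ (C.2 = b ∧ C'.2 = b')) S' S ∧
    InvM ((p :: q :: z, b) :: (y, b') :: S') m

/-- `(r', p')` are cyclically consecutive in `W` -/
def Cyc (r' p' : Pass) (W : List Pass) : Prop :=
  (∃ u v, W = u ++ r' :: p' :: v) ∨ ∃ u, W = p' :: (u ++ [r'])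

/-- TP-JUNC: there is a pair of neighbouring passages which cancel or belong to one corner of a
triple point -/
def S_JUNC : Prop := ∀ (D : Code) (Ts : List Tri) (m : ℕ → ℕ), (D.map Prod.snd).Nodup →
  WF (passes (D ++ TC Ts)) → InvM (D ++ TC Ts) m → (∀ T ∈ Ts, T.Col) →
  (∀ c ∈ Ts.flatMap Tri.cols, c ≠ 0) → (Ts.flatMap Tri.cols).Nodup → passes D ≠ [] →
  ∃ C ∈ D, ∃ a c p r, C.1 = a ++ p :: r :: c ∧
    (Canc m p r ∨ ∃ T ∈ Ts, ∃ W ∈ [T.wi, T.wj, T.wk], ∃ p' r' : Pass, Cyc r' p' W ∧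
      p'.crossing = m p.crossing ∧ p'.isOver = p.isOver ∧
      r'.crossing = m r.crossing ∧ r'.isOver = r.isOver)

end Pool.Agent.Y874.TP
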